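import Pool.Agent.D0H8.FL.Strata

set_option autoImplicit false

/-!
# The F-conjecture for Hassett spaces with one heavy mark and light marks of small total weight

The marks are `0, …, p-1` (the type `Fin p`) and `∞`, so `n = p + 1`.  The boundary divisors of
`M̄_{0,n}` are the `δ_S`, `S` a set of marks different from `∞` with `2 ≤ |S| < p` (`δ_S`
separates `S` from the other marks).  The F-curve of type `(A, B, C)`, for disjoint nonempty sets
`A, B, C` of marks different from `∞`, is the one of the partition `A, B, C`, (the rest, with `∞`).

Give the mark `∞` the weight `1` and the mark `x` a weight `a x ≥ 0`, with `∑ a x > 1`.  The map of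
`M̄_{0,n}` to Hassett's space of weighted pointed curves contracts the F-curves of type `(A, B, C)`
with `a(A) + a(B) + a(C) ≤ 1`; the divisors of degree zero on these F-curves are the divisors
pulled back from this space.

Theorem.
1. These are the divisors linearly equivalent to combinations, with coefficients of any sign, of
   `ψ_∞` and of the boundary divisors `δ_S` with `a(S) > 1`.
2. If `∑ a x ≤ 4 / 3`, then such a divisor is nef if it is nonnegative on the F-curves: the
   F-conjecture holds for all divisors pulled back from these Hassett spaces.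

For equal weights slightly larger than `1 / s`, with `s > 3 p / 4`, the space is the blow-up of
`ℙ^(n-3)` along the linear spans of dimension at most `p - s - 1` of `n - 1` general points, and the
divisors are the combinations of `ψ_∞` and of the `δ_T`, `∞ ∈ T`, `|T| ≤ (n + 2) / 4`.  The number
of marks is arbitrary, and the space of these divisors has exponentially large dimension.

Proof.  In a suitable gauge the coefficients `b S` of the sets with `a(S) ≤ 1` are zero, and this is
inherited by the strata, with the sums of the weights over the parts.  Consider a factor of a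
stratum with weights `s i` of sum `1 + K`, `K ≤ 1 / 3`.  If some `s i ≥ K`, the sets avoiding `i` have
zero coefficients, and the theorem on three heavy marks applies.  Otherwise the inequalities for
the F-curves say that `g J = b (Jᶜ) - b (all)` is a submodular function; it is monotone, and equal
to `g (all)` on the sets `J` with `s(J) ≥ K` (heavy sets).  A curve gives a family of sets `J`
with `s(J) < K` (light sets), the complements of the sets of marks that come together; if the
family has `N` members and the degree on `ψ_∞` is `d`, then the degrees of two marks in the family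
have the sum `≥ t = N - d`, and the degree of the divisor is `∑ g J - t g (all)`, the sum over the
family.  One uncrosses members with a light union, and deletes elements from members as long as
the condition on the degrees is kept.  In the end two members that are not nested have a heavy
union, so the sum of their values is at least `g (all)`; the degrees are at most `t`; and there
are at least `2 t` nonempty members, as the weight of a member is less than `K` and `4 K ≤ 1 + K`.
A member of minimal cardinality with `2 g J < g (all)` is contained in at most `t` members, and the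
values of the others are at least `g (all) - g J`.

Curves.  An irreducible curve in `M̄_{0,n}` meets the interior of a unique stratum, and its class is
the sum of its projections to the factors `M̄_{0,q+1}` of the stratum.  Such a factor belongs to
disjoint nonempty sets `B 0, …, B (q-1)` of marks different from `∞` (the marks behind the nodes and
marks of the component of the stable curve; the last one leads to `∞`).  On the factor the
projection of the curve has the intersection numbers `m S ≥ 0` with the boundary divisors
`δ_S`, `2 ≤ |S| < q`, the degree `d` on `ψ_∞`, and it meets the interior.  The divisor `δ_T` of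
`M̄_{0,n}` restricts to `δ_S` if `T` is the union of the `B i`, `i ∈ S`, to `-ψ_i` if `T = B i`, and
to `-ψ_∞` if `T` is the union of all `B i`.
-/

namespace Pool.Agent.Results.MP_23e236_ag.LightWeights

open Finset

variable {p q : ℕ}

/-- `c` is a family of coefficients: it stands for the divisor `∑ c S • δ_S`, the sum over the
`S` with `2 ≤ |S| < p`; it vanishes on the sets that give no boundary divisor. -/
def IsDivisor (c : Finset (Fin p) → ℝ) : Prop :=
  (∀ S : Finset (Fin p), S.card ≤ 1 → c S = 0) ∧ c univ = 0

/-- The degree of `∑ c S • δ_S` on the F-curve of type `(A, B, C)`. -/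
def fdegree (c : Finset (Fin p) → ℝ) (A B C : Finset (Fin p)) : ℝ :=
  c (A ∪ B) + c (A ∪ C) + c (B ∪ C) - c A - c B - c C - c (A ∪ B ∪ C)

/-- Nonnegative degree on every F-curve. -/
def FNef (c : Finset (Fin p) → ℝ) : Prop :=
  ∀ A B C : Finset (Fin p), A.Nonempty → B.Nonempty → C.Nonempty → Disjoint A B →
    Disjoint A C → Disjoint B C → 0 ≤ fdegree c A B C

/-- Degree zero on the F-curves of type `(A, B, C)` with `a(A) + a(B) + a(C) ≤ 1`, that is, on the
F-curves contracted by the map to the Hassett space with the weights `a x` and the weight `1`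
of `∞`. -/
def LightZero (c : Finset (Fin p) → ℝ) (a : Fin p → ℝ) : Prop :=
  ∀ A B C : Finset (Fin p), A.Nonempty → B.Nonempty → C.Nonempty → Disjoint A B →
    Disjoint A C → Disjoint B C → ∑ x ∈ A ∪ B ∪ C, a x ≤ 1 → fdegree c A B C = 0

/-- The linear equivalence `∑ c S • δ_S ∼ ∑ u S • δ_S + e • ψ_∞`: the difference of `c` and `u` is a
combination, with coefficients `w x y` whose sum is `e`, of the sums `∑ δ_S` over the `S` containing
`x` and `y` (these sums are all linearly equivalent to `ψ_∞`, and their differences generate the
relations, by Keel's theorem). -/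
def PsiEquiv (c u : Finset (Fin p) → ℝ) (e : ℝ) : Prop :=
  ∃ w : Fin p → Fin p → ℝ,
    (∑ y, ∑ x ∈ univ.filter (fun x : Fin p => x < y), w x y = e) ∧
    ∀ S : Finset (Fin p), S ≠ univ →
      c S - u S = ∑ y ∈ S, ∑ x ∈ S.filter (fun x : Fin p => x < y), w x y

/-- The `B i` are disjoint nonempty sets of marks different from `∞`. -/
def IsStratum (B : Fin q → Finset (Fin p)) : Prop :=
  (∀ i, (B i).Nonempty) ∧ ∀ i j, i ≠ j → Disjoint (B i) (B j)

/-- `m S` are the intersection numbers with `δ_S` of a curve in `M̄_{0,q+1}` that is not contained
in the boundary, and `d` is its degree on `ψ_∞`: all `m S ≥ 0`, and for all marks `i ≠ j` different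
from `∞` we have `ψ_∞ = ∑ δ_S`, the sum over the `S` containing `i` and `j`. -/
def IsCurve (m : Finset (Fin q) → ℕ) (d : ℕ) : Prop :=
  (∀ S : Finset (Fin q), S.card ≤ 1 → m S = 0) ∧ m univ = 0 ∧
    ∀ i j : Fin q, i ≠ j →
      ∑ S ∈ univ.filter (fun S : Finset (Fin q) => i ∈ S ∧ j ∈ S), m S = d

/-- The degree of `∑ c S • δ_S` on the curve with the numbers `m`, `d` in the factor `M̄_{0,q+1}` of
a stratum given by the `B i`; the degree of `ψ_i` on the curve is `∑ m S - d`, the sum over the `S`
containing `i`. -/
def degree (c : Finset (Fin p) → ℝ) (B : Fin q → Finset (Fin p)) (m : Finset (Fin q) → ℕ)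
    (d : ℕ) : ℝ :=
  ∑ S ∈ univ.filter (fun S : Finset (Fin q) => 2 ≤ S.card ∧ S.card < q), c (S.biUnion B) * m S -
    ∑ i, c (B i) * (∑ S ∈ univ.filter (fun S : Finset (Fin q) => i ∈ S), (m S : ℝ) - d) -
    c (univ.biUnion B) * d

theorem pairs {G : Fin p → Fin p → ℝ} (hG : ∀ i, G i i = 0) (S : Finset (Fin p)) :
    ∑ i ∈ S, ∑ j ∈ S, G i j =
      ∑ y ∈ S, ∑ x ∈ S.filter (fun x : Fin p => x < y), (G x y + G y x) := by
  have e1 : ∀ i ∈ S, ∑ j ∈ S, G i j =
      ∑ j ∈ S.filter (fun j => j < i), G i j + ∑ j ∈ S.filter (fun j => i < j), G i j := by
    intro i hi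
    rw [← sum_erase S (hG i), ← sum_union]
    · refine sum_congr ?_ fun _ _ => rfl
      ext j
      simp only [mem_erase, mem_union, mem_filter]
      constructor
      · rintro ⟨h1, h2⟩
        rcases lt_or_gt_of_ne h1 with h3 | h3
        · exact Or.inl ⟨h2, h3⟩
        · exact Or.inr ⟨h2, h3⟩
      · rintro (⟨h1, h2⟩ | ⟨h1, h2⟩)
        · exact ⟨ne_of_lt h2, h1⟩
        · exact ⟨ne_of_gt h2, h1⟩
    · rw [disjoint_left]
      intro j hj hj'
      exact lt_asymm (mem_filter.1 hj).2 (mem_filter.1 hj').2
  have e2 : ∑ i ∈ S, ∑ j ∈ S.filter (fun j => i < j), G i j =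
      ∑ y ∈ S, ∑ x ∈ S.filter (fun x => x < y), G x y := by
    simp only [sum_filter]
    rw [sum_comm]
  rw [sum_congr rfl e1, sum_add_distrib, e2, ← sum_add_distrib]
  refine sum_congr rfl fun y _ => ?_
  rw [← sum_add_distrib]
  exact sum_congr rfl fun x _ => by ring

/-- Let `D = ∑ c S • δ_S` be a divisor on `M̄_{0,p+1}` with real coefficients, and let `a x ≥ 0` be
weights of the marks different from `∞`, with `∑ a x > 1`.

1. `D` has degree zero on the F-curves contracted by the map to the Hassett space with the weights
   `a x`, and `1` for `∞`, if and only if `D` is linearly equivalent to a combination of `ψ_∞` and of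
   the boundary divisors `δ_S` with `a(S) > 1`.
2. In this case, if `∑ a x ≤ 4 / 3` and `D` has nonnegative degree on all F-curves, then `D` has
   nonnegative degree on all curves, in all strata; so `D` is nef. -/
theorem result (p : ℕ) (c : Finset (Fin p) → ℝ) (hc : IsDivisor c) (a : Fin p → ℝ)
    (ha : ∀ x, 0 ≤ a x) (h1 : 1 < ∑ x, a x) :
    (LightZero c a ↔ ∃ (u : Finset (Fin p) → ℝ) (e : ℝ), IsDivisor u ∧ PsiEquiv c u e ∧
      ∀ S : Finset (Fin p), u S ≠ 0 → 1 < ∑ x ∈ S, a x) ∧
    (∑ x, a x ≤ 4 / 3 → LightZero c a → FNef c →
      ∀ (q : ℕ) (B : Fin q → Finset (Fin p)) (m : Finset (Fin q) → ℕ) (d : ℕ), 3 ≤ q →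
        IsStratum B → IsCurve m d → 0 ≤ degree c B m d) := by
  refine ⟨⟨fun hz => ?_, ?_⟩, fun h2 hz hF q B m d hq hB hm => ?_⟩
  · refine ⟨fun S => if S = univ then 0 else D0H8.FL.nb c S, _, ⟨fun S hS => ?_, if_pos rfl⟩,
      ⟨fun x y => D0H8.FL.EP c x y + D0H8.FL.EP c y x, rfl, fun S hS => ?_⟩, fun S hS => ?_⟩
    · by_cases hu : S = univ
      · simp only [hu, if_true]
      · simp only [hu, if_false]
        unfold D0H8.FL.nb
        rw [hc.1 S hS]
        have : ∑ x ∈ S, ∑ y ∈ S, D0H8.FL.EP c x y = 0 := by
          refine sum_eq_zero fun x hx => sum_eq_zero fun y hy => ?_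
          rw [card_le_one.1 hS x hx y hy, D0H8.FL.EP_self]
        rw [this, sub_zero]
    · simp only [hS, if_false]
      rw [← pairs (D0H8.FL.EP_self c) S]
      unfold D0H8.FL.nb
      ring
    · by_contra hn
      by_cases hu : S = univ
      · simp only [hu, if_true, ne_eq, not_true_eq_false] at hS
      · simp only [hu, if_false] at hS
        exact hS (D0H8.FL.nb_zero hc.1 ha hz S (not_lt.1 hn))
  · rintro ⟨u, e, hu, ⟨w, -, hw⟩, hsupp⟩ A B C _ _ _ h2 h3 h4 h5
    have hcu : ∀ S : Finset (Fin p), S ⊆ A ∪ B ∪ C →
        c S = ∑ i ∈ S, ∑ j ∈ S, (if j < i then w j i else 0) := by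
      intro S hS
      have e0 : ∑ x ∈ S, a x ≤ 1 :=
        (sum_le_sum_of_subset_of_nonneg hS fun x _ _ => ha x).trans h5
      have e1 : u S = 0 := by
        by_contra hn
        exact absurd (hsupp S hn) (not_lt.2 e0)
      have e3 : S ≠ univ := by
        rintro rfl
        exact absurd h1 (not_lt.2 e0)
      have e2 := hw S e3
      rw [e1, sub_zero] at e2
      rw [e2]
      refine sum_congr rfl fun y _ => ?_
      rw [sum_filter]
    have key := R647.FH.T_quad (fun i j : Fin p => if j < i then w j i else 0) h2 h3 h4
    unfold R647.AF.T at key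
    unfold fdegree
    rw [hcu (A ∪ B ∪ C) (Subset.refl _), hcu (A ∪ B) subset_union_left,
      hcu (A ∪ C) (union_subset (subset_union_left.trans subset_union_left) subset_union_right),
      hcu (B ∪ C) (union_subset (subset_union_right.trans subset_union_left) subset_union_right),
      hcu A (subset_union_left.trans subset_union_left),
      hcu B (subset_union_right.trans subset_union_left), hcu C subset_union_right]
    exact key
  · exact D0H8.FL.strata hc.1 ha h2 hz hF (by omega) hB.1 hB.2 hm.1 hm.2.1 hm.2.2

end Pool.Agent.Results.MP_23e236_ag.LightWeights
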