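import Pool.Agent.D0H35.FC.Fin

set_option autoImplicit false

/-!
# The F-conjecture for the divisors on `M̄_{0,n}` with paired increments of the degrees

The marks are `0, …, p-1` (the type `Fin p`) and `∞`, so `n = p + 1`.  The boundary divisors of
`M̄_{0,n}` are the `δ_S`, `S` a set of marks different from `∞` with `2 ≤ |S| < p` (`δ_S`
separates `S` from the other marks).  The F-curve of type `(A, B, C)`, for disjoint nonempty sets
`A, B, C` of marks different from `∞`, is the one of the partition `A, B, C`, (the rest, with `∞`).

Let `D` be a divisor.  Its increment for the marks `x, y, z` at a set `A` of other marks (all of them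
different from `∞`) is the change of the degree on the F-curve of type `(A, {x}, {y})` if `z` is moved
from the part of `∞` to `A` (for `A = ∅` the first degree is zero); it is symmetric in `x, y, z`.

* (`IsMonotone`) All increments are nonnegative.  That these `D` are nef is a starting result.
* (`IsConcave`) The degree on the F-curves of type `(A, {x}, {y})` is a submodular function of the set
  `A`, where `A` may contain `∞` (concave degrees; equivalently all the differences of order four of
  the coefficients, as a function on the subsets of the set of all `n` marks, are nonnegative).  This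
  condition is invariant under all permutations of the `n` marks, and these `D` form a cone of full
  dimension.
* (`IsPaired`) For every two disjoint sets `A`, `B` the sum of the increments at `A` and at `B` is
  nonnegative.  Both the monotone and the concave divisors are paired.

Theorem.  A paired divisor is linearly equivalent to an effective sum of boundary divisors, and it is
nef: its degree is nonnegative on every curve in every stratum.  More precisely, `D - t (K + Δ)` is
nef if `t` is at most all the degrees on the F-curves of type `({z}, {x}, {y})` and all the sums of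
such a degree and an increment for `x, y, z`; so `D` is ample if these numbers are positive.

Proof.  For every linear order of the parts of a stratum there is a linear equivalence for which the
coefficient of `δ_S` is the sum of the increments for `i, j, l` at the set of the elements of `S`
before `i` and the elements outside `S` before `l`, over all `i, j ∈ S`, `l ∉ S` which are in the
order `l < i < j`.  We take the average over all the orders.  The involution on the orders which
reverses the order and exchanges `j` and `l` replaces this set by a disjoint one: the elements of `S`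
behind `i` and the elements outside `S` behind `j`.  So the sum of the increments is nonnegative.
-/

namespace Pool.Agent.Results.MP_23e236_ag.PairedIncrements

open Finset

variable {R : Type} [Field R] {p q : ℕ}

/-- `c` is a family of coefficients: it stands for the divisor `∑ c S • δ_S`, the sum over the
`S` with `2 ≤ |S| < p`; it vanishes on the sets that give no boundary divisor. -/
def IsDivisor (c : Finset (Fin p) → R) : Prop :=
  (∀ S : Finset (Fin p), S.card ≤ 1 → c S = 0) ∧ c univ = 0

/-- The degree of `∑ c S • δ_S` on the F-curve of type `(A, B, C)`; it is `0` if `A` is empty. -/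
def fdegree (c : Finset (Fin p) → R) (A B C : Finset (Fin p)) : R :=
  c (A ∪ B) + c (A ∪ C) + c (B ∪ C) - c A - c B - c C - c (A ∪ B ∪ C)

/-- The change of the degree on the F-curve of type `(A, {x}, {y})` if `z` is moved from the part of
`∞` to `A`. -/
def increment (c : Finset (Fin p) → R) (A : Finset (Fin p)) (x y z : Fin p) : R :=
  fdegree c (insert z A) {x} {y} - fdegree c A {x} {y}

/-- Linear equivalence: the difference is a combination, with coefficients `a x y` whose sum is
zero (take `S = univ`), of the sums `∑ δ_S` over the `S` containing `x` and `y` (these sums are all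
linearly equivalent to `ψ_∞`, and their differences generate the relations, by Keel's theorem). -/
def LinEquiv (c u : Finset (Fin p) → R) : Prop :=
  ∃ a : Fin p → Fin p → R, ∀ S : Finset (Fin p),
    c S - u S = ∑ y ∈ S, ∑ x ∈ S.filter (fun x : Fin p => x < y), a x y

/-- The `B i` are disjoint nonempty sets of marks different from `∞`. -/
def IsStratum (B : Fin q → Finset (Fin p)) : Prop :=
  (∀ i, (B i).Nonempty) ∧ ∀ i j, i ≠ j → Disjoint (B i) (B j)

/-- `m S` are the intersection numbers with `δ_S` of a curve in `M̄_{0,q+1}` that is not contained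
in the boundary, and `d` is its degree on `ψ_∞`: all `m S ≥ 0`, and for all marks `i ≠ j` different
from `∞` we have `ψ_∞ = ∑ δ_S`, the sum over the `S` containing `i` and `j`. -/
def IsCurve (m : Finset (Fin q) → ℕ) (d : ℕ) : Prop :=
  (∀ S : Finset (Fin q), S.card ≤ 1 → m S = 0) ∧ m univ = 0 ∧
    ∀ i j : Fin q, i ≠ j →
      ∑ S ∈ univ.filter (fun S : Finset (Fin q) => i ∈ S ∧ j ∈ S), m S = d

/-- The degree of `∑ c S • δ_S` on the curve with the numbers `m`, `d` in the factor `M̄_{0,q+1}` of
a stratum given by the `B i`; the degree of `ψ_i` on the curve is `∑ m S - d`, the sum over the `S`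
containing `i`. -/
def degree (c : Finset (Fin p) → R) (B : Fin q → Finset (Fin p)) (m : Finset (Fin q) → ℕ)
    (d : ℕ) : R :=
  ∑ S ∈ univ.filter (fun S : Finset (Fin q) => 2 ≤ S.card ∧ S.card < q), c (S.biUnion B) * m S -
    ∑ i, c (B i) * (∑ S ∈ univ.filter (fun S : Finset (Fin q) => i ∈ S), (m S : R) - d) -
    c (univ.biUnion B) * d

/-- The degree of the log canonical divisor `K + Δ = ∑ ψ_i - Δ` on the curve. -/
def logDegree (m : Finset (Fin q) → ℕ) (d : ℕ) : R :=
  ∑ S : Finset (Fin q), (m S : R) * ((S.card : R) - 1) - d * ((q : R) - 1)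

/-- The divisor `∑ s (s - 1) (n - s) (n - 1 - s) • δ_S`, `s = |S|`, `n = p + 1`. -/
def quartic (S : Finset (Fin p)) : R :=
  (S.card : R) * ((S.card : R) - 1) * ((p : R) + 1 - S.card) * ((p : R) - S.card)

variable [LinearOrder R]

/-- All increments are nonnegative. -/
def IsMonotone (c : Finset (Fin p) → R) : Prop :=
  ∀ (A : Finset (Fin p)) (x y z : Fin p), x ∉ A → y ∉ A → z ∉ A → x ≠ y → x ≠ z → y ≠ z →
    0 ≤ increment c A x y z

/-- The degree on the F-curves of type `(A, {x}, {y})` is a submodular function of `A`: this is the
first condition for two marks `z`, `w` different from `∞`, and the second one for `z` and `∞` (the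
F-curves of the types `(A ∪ {∞}, {x}, {y})` and `(A', {x}, {y})` are the same if `A'` consists of the
marks different from `∞` which are not in `A ∪ {x, y}`). -/
def IsConcave (c : Finset (Fin p) → R) : Prop :=
  (∀ (A : Finset (Fin p)) (x y z w : Fin p), x ∉ A → y ∉ A → z ∉ A → w ∉ A → x ≠ y → x ≠ z →
    x ≠ w → y ≠ z → y ≠ w → z ≠ w → increment c (insert w A) x y z ≤ increment c A x y z) ∧
  ∀ (A : Finset (Fin p)) (x y z : Fin p), x ∉ A → y ∉ A → z ∉ A → x ≠ y → x ≠ z → y ≠ z →
    0 ≤ increment c A x y z + increment c (univ \ insert x (insert y (insert z A))) x y z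

/-- The increments at two disjoint sets have a nonnegative sum. -/
def IsPaired (c : Finset (Fin p) → R) : Prop :=
  ∀ (A B : Finset (Fin p)) (x y z : Fin p), Disjoint A B → x ∉ A → y ∉ A → z ∉ A → x ∉ B →
    y ∉ B → z ∉ B → x ≠ y → x ≠ z → y ≠ z → 0 ≤ increment c A x y z + increment c B x y z

section

variable [IsStrictOrderedRing R]

theorem concave_paired {c : Finset (Fin p) → R} (h : IsConcave c) : IsPaired c := by
  intro A B x y z hAB xA yA zA xB yB zB hxy hxz hyz
  -- the increment decreases
  have h1 : ∀ (T : Finset (Fin p)) (A : Finset (Fin p)), x ∉ A ∪ T → y ∉ A ∪ T → z ∉ A ∪ T →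
      Disjoint A T → increment c (A ∪ T) x y z ≤ increment c A x y z := by
    intro T
    induction T using Finset.induction_on with
    | empty =>
      intro A _ _ _ _
      rw [union_empty]
    | insert w s hw ih =>
      intro A hx hy hz hd
      rw [disjoint_insert_right] at hd
      simp only [mem_union, mem_insert, not_or] at hx hy hz
      have h2 := ih A (by simp [hx]) (by simp [hy]) (by simp [hz]) hd.2
      have h3 := h.1 (A ∪ s) x y z w (by simp [hx]) (by simp [hy]) (by simp [hz])
        (by simp [hd.1, hw]) hxy hxz hx.2.1 hyz hy.2.1 hz.2.1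
      rw [union_insert]
      exact h3.trans h2
  have h2 := h.2 A x y z xA yA zA hxy hxz hyz
  have h3 : univ \ insert x (insert y (insert z A)) =
      B ∪ ((univ \ insert x (insert y (insert z A))) \ B) := by
    rw [union_sdiff_of_subset]
    intro w hw
    simp only [mem_sdiff, mem_univ, true_and, mem_insert, not_or]
    refine ⟨?_, ?_, ?_, ?_⟩
    · rintro rfl; exact xB hw
    · rintro rfl; exact yB hw
    · rintro rfl; exact zB hw
    · exact fun h => disjoint_left.1 hAB h hw
  have h4 := h1 ((univ \ insert x (insert y (insert z A))) \ B) B (by simp [xB]) (by simp [yB])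
    (by simp [zB]) disjoint_sdiff
  rw [← h3] at h4
  linarith

theorem monotone_paired {c : Finset (Fin p) → R} (h : IsMonotone c) : IsPaired c := by
  intro A B x y z hAB xA yA zA xB yB zB hxy hxz hyz
  have h1 := h A x y z xA yA zA hxy hxz hyz
  have h2 := h B x y z xB yB zB hxy hxz hyz
  linarith

theorem PM_of {c : Finset (Fin p) → R} (h : IsPaired c) : D0H35.FC.PM c := by
  intro A B x y z hAB xA yA zA xB yB zB hxy hxz hyz
  exact h A B x y z hAB xA yA zA xB yB zB hxy hxz hyz

omit [LinearOrder R] [IsStrictOrderedRing R] in
theorem quartic_divisor : IsDivisor (quartic : Finset (Fin p) → R) := by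
  constructor
  · intro S hS
    unfold quartic
    have : S.card = 0 ∨ S.card = 1 := by omega
    rcases this with h | h <;> rw [h] <;> simp
  · unfold quartic
    rw [card_univ, Fintype.card_fin]
    simp

omit [LinearOrder R] [IsStrictOrderedRing R] in
theorem quartic_increment {A : Finset (Fin p)} {x y z : Fin p} (xA : x ∉ A) (yA : y ∉ A)
    (zA : z ∉ A) (hxy : x ≠ y) (hxz : x ≠ z) (hyz : y ≠ z) :
    increment (quartic : Finset (Fin p) → R) A x y z = 12 * ((p : R) - 2 - 2 * A.card) := by
  have e1 : ∀ (A : Finset (Fin p)) (x y : Fin p), x ∉ A → y ∉ A → x ≠ y →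
      fdegree (quartic : Finset (Fin p) → R) A {x} {y} =
        12 * (A.card : R) * ((p : R) - 1 - A.card) := by
    intro A x y xA yA hxy
    have e2 : (A ∪ {x}).card = A.card + 1 := by
      rw [card_union_of_disjoint (disjoint_singleton_right.2 xA), card_singleton]
    have e3 : (A ∪ {y}).card = A.card + 1 := by
      rw [card_union_of_disjoint (disjoint_singleton_right.2 yA), card_singleton]
    have e4 : ({x} ∪ {y} : Finset (Fin p)).card = 2 := by
      rw [card_union_of_disjoint (disjoint_singleton_right.2 (by simpa using hxy.symm)),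
        card_singleton, card_singleton]
    have e5 : (A ∪ {x} ∪ {y}).card = A.card + 2 := by
      rw [card_union_of_disjoint (disjoint_singleton_right.2 (by simp [yA, hxy.symm])), e2,
        card_singleton]
    unfold fdegree quartic
    rw [e2, e3, e4, e5, card_singleton, card_singleton]
    push_cast
    ring
  unfold increment
  rw [e1 A x y xA yA hxy, e1 (insert z A) x y (by simp [xA, hxz]) (by simp [yA, hyz]) hxy,
    card_insert_of_notMem zA]
  push_cast
  ring

omit [LinearOrder R] [IsStrictOrderedRing R] in
theorem increment_add (c u : Finset (Fin p) → R) (t : R) (A : Finset (Fin p)) (x y z : Fin p) :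
    increment (fun S => c S + t * u S) A x y z = increment c A x y z + t * increment u A x y z := by
  unfold increment fdegree
  ring

theorem increment_le (c : Finset (Fin p) → R) (A : Finset (Fin p)) (x y z : Fin p) :
    |increment c A x y z| ≤ 14 * ∑ S : Finset (Fin p), |c S| := by
  have h1 : ∀ S : Finset (Fin p), |c S| ≤ ∑ S : Finset (Fin p), |c S| := fun S =>
    single_le_sum (f := fun S => |c S|) (fun _ _ => abs_nonneg _) (mem_univ S)
  have h2 : ∀ S : Finset (Fin p), c S ≤ ∑ S : Finset (Fin p), |c S| ∧
      - c S ≤ ∑ S : Finset (Fin p), |c S| := fun S =>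
    ⟨(le_abs_self _).trans (h1 S), (neg_le_abs _).trans (h1 S)⟩
  generalize ∑ S : Finset (Fin p), |c S| = M at h2
  unfold increment fdegree
  rw [abs_le]
  have a1 := h2 (insert z A ∪ {x})
  have a2 := h2 (insert z A ∪ {y})
  have a3 := h2 ({x} ∪ {y})
  have a4 := h2 (insert z A)
  have a5 := h2 {x}
  have a6 := h2 {y}
  have a7 := h2 (insert z A ∪ {x} ∪ {y})
  have a8 := h2 (A ∪ {x})
  have a9 := h2 (A ∪ {y})
  have a10 := h2 A
  have a11 := h2 (A ∪ {x} ∪ {y})
  constructor <;> linarith [a1.1, a1.2, a2.1, a2.2, a3.1, a3.2, a4.1, a4.2, a5.1, a5.2, a6.1,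
    a6.2, a7.1, a7.2, a8.1, a8.2, a9.1, a9.2, a10.1, a10.2, a11.1, a11.2]

theorem concave_full (c : Finset (Fin p) → R) :
    ∃ t₀ : R, ∀ t : R, t₀ ≤ t → IsConcave (fun S => c S + t * quartic S) := by
  have hM : 0 ≤ ∑ S : Finset (Fin p), |c S| := sum_nonneg fun S _ => abs_nonneg _
  refine ⟨2 * ∑ S : Finset (Fin p), |c S|, fun t ht => ⟨?_, ?_⟩⟩
  · intro A x y z w xA yA zA wA hxy hxz hxw hyz hyw hzw
    rw [increment_add, increment_add, quartic_increment xA yA zA hxy hxz hyz,
      quartic_increment (A := insert w A) (by simp [xA, hxw]) (by simp [yA, hyw])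
        (by simp [zA, hzw]) hxy hxz hyz, card_insert_of_notMem wA]
    have h1 := (abs_le.1 (increment_le c A x y z)).1
    have h2 := (abs_le.1 (increment_le c (insert w A) x y z)).2
    push_cast
    nlinarith
  · intro A x y z xA yA zA hxy hxz hyz
    rw [increment_add, increment_add, quartic_increment xA yA zA hxy hxz hyz,
      quartic_increment (by simp) (by simp) (by simp) hxy hxz hyz]
    have h1 := (abs_le.1 (increment_le c A x y z)).1
    have h2 := (abs_le.1 (increment_le c
      (univ \ insert x (insert y (insert z A))) x y z)).1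
    have h3 : ((univ \ insert x (insert y (insert z A))).card : R) = (p : R) - 3 - A.card := by
      have e1 := card_sdiff_add_card_eq_card (subset_univ (insert x (insert y (insert z A))))
      rw [card_univ, Fintype.card_fin, card_insert_of_notMem (by simp [xA, hxy, hxz]),
        card_insert_of_notMem (by simp [yA, hyz]), card_insert_of_notMem zA] at e1
      have e2 : ((univ \ insert x (insert y (insert z A))).card : R) + (A.card + 1 + 1 + 1) =
          (p : R) := by exact_mod_cast e1
      linarith
    rw [h3]
    nlinarith

end

/-- Let `D = ∑ c S • δ_S` be a divisor on `M̄_{0,p+1}` with coefficients in an ordered field `R`, for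
instance the rational or the real numbers.

1. If `D` is `IsPaired`, then `D` is linearly equivalent to an effective sum of boundary divisors.
2. If `D` is `IsPaired`, then `D` has nonnegative degree on every curve in every stratum, so it is nef.
3. Let `D` be `IsPaired`, and let `t` be at most all the degrees of `D` on the F-curves of type
   `({z}, {x}, {y})` and all the sums of such a degree and an increment for `x, y, z` at a nonempty
   set. Then the degree of `D` on every curve is at least `t` times the degree of `K + Δ`, and the
   degree of `K + Δ` is positive on all nonzero curve classes.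
4. `IsMonotone` implies `IsPaired`, and `IsConcave` implies `IsPaired`.
5. For every `D` the divisor `D + t • quartic` is `IsConcave` if `t` is large; so the concave
   divisors form a cone of full dimension. If `5 ≤ p` then `quartic` is not `IsMonotone`. -/
theorem result (R : Type) [Field R] [LinearOrder R] [IsStrictOrderedRing R] (p : ℕ)
    (c : Finset (Fin p) → R) (hc : IsDivisor c) :
    (IsPaired c → ∃ u : Finset (Fin p) → R, IsDivisor u ∧ (∀ S, 0 ≤ u S) ∧ LinEquiv c u) ∧
    (IsPaired c → ∀ (q : ℕ) (B : Fin q → Finset (Fin p)) (m : Finset (Fin q) → ℕ) (d : ℕ),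
      IsStratum B → IsCurve m d → 0 ≤ degree c B m d) ∧
    (IsPaired c → ∀ t : R,
      (∀ x y z : Fin p, x ≠ y → x ≠ z → y ≠ z → t ≤ fdegree c {z} {x} {y}) →
      (∀ (A : Finset (Fin p)) (x y z : Fin p), A.Nonempty → x ∉ A → y ∉ A → z ∉ A → x ≠ y →
        x ≠ z → y ≠ z → t ≤ fdegree c {z} {x} {y} + increment c A x y z) →
      ∀ (q : ℕ) (B : Fin q → Finset (Fin p)) (m : Finset (Fin q) → ℕ) (d : ℕ), 3 ≤ q →
        IsStratum B → IsCurve m d → t * logDegree m d ≤ degree c B m d ∧
          ((∃ S, m S ≠ 0) → (0 : R) < logDegree m d)) ∧
    (IsMonotone c → IsPaired c) ∧ (IsConcave c → IsPaired c) ∧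
    IsDivisor (quartic : Finset (Fin p) → R) ∧
      (∃ t₀ : R, ∀ t : R, t₀ ≤ t → IsConcave (fun S => c S + t * quartic S)) ∧
      (5 ≤ p → ¬ IsMonotone (quartic : Finset (Fin p) → R)) := by
  refine ⟨fun h => ?_, fun h q B m d hB hm => ?_, fun h t h1 h2 q B m d hq hB hm => ⟨?_, ?_⟩,
    monotone_paired, concave_paired, quartic_divisor, concave_full c, fun hp h => ?_⟩
  · obtain ⟨u, h1, h2, h3, a, ha⟩ := D0H35.FC.effP hc.1 hc.2 (PM_of h)
    exact ⟨u, ⟨h1, h2⟩, h3, a, ha⟩
  · exact D0H35.FC.nefP (hc.1 ∅ (by simp)) (PM_of h) hB.2 hm
  · exact D0H35.FC.ampP (hc.1 ∅ (by simp)) (PM_of h) h1 h2 (by omega) hB.1 hB.2 hm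
  · exact fun hS => R647.FC.lc_pos hm hS
  · have hx : (⟨0, by omega⟩ : Fin p) ∉ (univ.filter (fun i : Fin p => 3 ≤ i.val)) := by simp
    have hy : (⟨1, by omega⟩ : Fin p) ∉ (univ.filter (fun i : Fin p => 3 ≤ i.val)) := by simp
    have hz : (⟨2, by omega⟩ : Fin p) ∉ (univ.filter (fun i : Fin p => 3 ≤ i.val)) := by simp
    have hxy : (⟨0, by omega⟩ : Fin p) ≠ ⟨1, by omega⟩ := by simp
    have hxz : (⟨0, by omega⟩ : Fin p) ≠ ⟨2, by omega⟩ := by simp
    have hyz : (⟨1, by omega⟩ : Fin p) ≠ ⟨2, by omega⟩ := by simp
    have h1 := h _ _ _ _ hx hy hz hxy hxz hyz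
    rw [quartic_increment hx hy hz hxy hxz hyz] at h1
    have h2 : ((univ.filter (fun i : Fin p => 3 ≤ i.val)).card : ℕ) = p - 3 := by
      have e1 : (univ.filter (fun i : Fin p => 3 ≤ i.val)) =
          univ \ {⟨0, by omega⟩, ⟨1, by omega⟩, ⟨2, by omega⟩} := by
        ext i
        simp only [mem_filter, mem_univ, true_and, mem_sdiff, mem_insert, mem_singleton,
          Fin.ext_iff]
        omega
      have e2 := card_sdiff_add_card_eq_card (subset_univ
        ({⟨0, by omega⟩, ⟨1, by omega⟩, ⟨2, by omega⟩} : Finset (Fin p)))
      rw [← e1, card_univ, Fintype.card_fin, card_insert_of_notMem (by simp),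
        card_insert_of_notMem (by simp), card_singleton] at e2
      omega
    rw [h2, Nat.cast_sub (by omega)] at h1
    have h3 : (5 : R) ≤ p := by exact_mod_cast hp
    push_cast at h1
    linarith

end Pool.Agent.Results.MP_23e236_ag.PairedIncrements
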