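import Pool.Agent.D0H8.FP.Strata

set_option autoImplicit false

/-!
# The F-conjecture for the divisors separating one of two disjoint pairs of marks

The marks are `0, …, p-1` (the type `Fin p`) and `∞`, so `n = p + 1`.  The boundary divisors of
`M̄_{0,n}` are the `δ_S`, `S` a set of marks different from `∞` with `2 ≤ |S| < p` (`δ_S`
separates `S` from the other marks).  The F-curve of type `(A, B, C)`, for disjoint nonempty sets
`A, B, C` of marks different from `∞`, is the one of the partition `A, B, C`, (the rest, with `∞`).

Fix two disjoint pairs of marks: `{x, y}` and `{z, ∞}` (two arbitrary disjoint pairs, after a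
renumbering).  The boundary divisor `δ_S` separates `z` from `∞` if `z ∈ S`, and it separates `x` from
`y` if exactly one of them is in `S`; about three quarters of the boundary divisors separate at
least one of the two pairs.

Theorem.  Let `D` be a linear combination, with coefficients of any sign, of boundary divisors that
separate at least one of the two pairs.  If `D` is nonnegative on the F-curves then `D` is nef.

The divisors of the theorem are, up to linear equivalence, the divisors whose degree is zero on the
F-curves with `x, y` in the same part and `z, ∞` in the same part.  These F-curves are the ones in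
the stratum `δ_{xy} ∩ δ_{z∞}`, which is isomorphic to `M̄_{0,n-2}`; so the theorem is the F-conjecture
for all the divisors of `M̄_{0,n}` whose restriction to this stratum of codimension two is
numerically trivial.  They form a linear space whose codimension in the Picard group is the Picard
number of `M̄_{0,n-2}`.  The number of marks is arbitrary.

The starting file `ThreeHeavyMarks` treats the other kind of codimension two: there the divisors
separate three marks, that is, one of two pairs with a common mark.

Proof.  The condition is inherited by the strata, unless marks of the two pairs come together; then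
the theorem on three marks applies.  In a suitable gauge the coefficients of the `δ_S` that separate
neither pair are zero.  For a curve the number of the `S` containing `z, x` but not `y` is the same as
the number of the `S` containing `z, y` but not `x`.  We match the former, `G`, with the latter, `H`, in
an arbitrary way; the inequality for the F-curve of type `(G ∩ H, G \ H, H \ G)` replaces `G` and `H` by
`G ∩ H`, `G ∪ H`, `G \ H` and `H \ G`.  Now all the sets separate only one of the pairs.  Those
containing `z` contain each mark (different from `z, ∞`) equally often, and the coefficients are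
submodular on them; so they are uncrossed to the trivial sets `{z}` and the set of all marks.  The
sets containing `x` and those containing `y` contain the other marks equally often, and the
inequality for the F-curve of type `(G \ H, H \ G, G ∩ H)` removes the intersections, until the sets
`{x}` and `{y}` remain.

Curves.  An irreducible curve in `M̄_{0,n}` meets the interior of a unique stratum, and its class is
the sum of its projections to the factors `M̄_{0,q+1}` of the stratum.  Such a factor belongs to
disjoint nonempty sets `B 0, …, B (q-1)` of marks different from `∞` (the marks behind the nodes and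
marks of the component of the stable curve; the last one leads to `∞`).  On the factor the
projection of the curve has the intersection numbers `m S ≥ 0` with the boundary divisors
`δ_S`, `2 ≤ |S| < q`, the degree `d` on `ψ_∞`, and it meets the interior.  The divisor `δ_T` of
`M̄_{0,n}` restricts to `δ_S` if `T` is the union of the `B i`, `i ∈ S`, to `-ψ_i` if `T = B i`, and
to `-ψ_∞` if `T` is the union of all `B i`.
-/

namespace Pool.Agent.Results.MP_23e236_ag.TwoPairs

open Finset

variable {p q : ℕ}

/-- `c` is a family of coefficients: it stands for the divisor `∑ c S • δ_S`, the sum over the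
`S` with `2 ≤ |S| < p`; it vanishes on the sets that give no boundary divisor. -/
def IsDivisor (c : Finset (Fin p) → ℝ) : Prop :=
  (∀ S : Finset (Fin p), S.card ≤ 1 → c S = 0) ∧ c univ = 0

/-- The degree of `∑ c S • δ_S` on the F-curve of type `(A, B, C)`. -/
def fdegree (c : Finset (Fin p) → ℝ) (A B C : Finset (Fin p)) : ℝ :=
  c (A ∪ B) + c (A ∪ C) + c (B ∪ C) - c A - c B - c C - c (A ∪ B ∪ C)

/-- Nonnegative degree on every F-curve. -/
def FNef (c : Finset (Fin p) → ℝ) : Prop :=
  ∀ A B C : Finset (Fin p), A.Nonempty → B.Nonempty → C.Nonempty → Disjoint A B →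
    Disjoint A C → Disjoint B C → 0 ≤ fdegree c A B C

/-- The set `S` of marks different from `∞` separates the marks of at least one of the pairs
`{x, y}` and `{z, ∞}`. -/
def Separates (x y z : Fin p) (S : Finset (Fin p)) : Prop :=
  z ∈ S ∨ ¬ (x ∈ S ↔ y ∈ S)

/-- Degree zero on the F-curves with `x, y` in the same part and `z, ∞` in the same part. -/
def StratumZero (c : Finset (Fin p) → ℝ) (x y z : Fin p) : Prop :=
  ∀ A B C : Finset (Fin p), A.Nonempty → B.Nonempty → C.Nonempty → Disjoint A B →
    Disjoint A C → Disjoint B C → z ∉ A → z ∉ B → z ∉ C → (x ∈ A ↔ y ∈ A) → (x ∈ B ↔ y ∈ B) →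
    (x ∈ C ↔ y ∈ C) → fdegree c A B C = 0

/-- Linear equivalence: the difference is a combination, with coefficients `w x y` whose sum is
zero (take `S = univ`), of the sums `∑ δ_S` over the `S` containing `x` and `y` (these sums are all
linearly equivalent to `ψ_∞`, and their differences generate the relations, by Keel's theorem). -/
def LinEquiv (c u : Finset (Fin p) → ℝ) : Prop :=
  ∃ w : Fin p → Fin p → ℝ, ∀ S : Finset (Fin p),
    c S - u S = ∑ y ∈ S, ∑ x ∈ S.filter (fun x : Fin p => x < y), w x y

/-- The `B i` are disjoint nonempty sets of marks different from `∞`. -/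
def IsStratum (B : Fin q → Finset (Fin p)) : Prop :=
  (∀ i, (B i).Nonempty) ∧ ∀ i j, i ≠ j → Disjoint (B i) (B j)

/-- `m S` are the intersection numbers with `δ_S` of a curve in `M̄_{0,q+1}` that is not contained
in the boundary, and `d` is its degree on `ψ_∞`: all `m S ≥ 0`, and for all marks `i ≠ j` different
from `∞` we have `ψ_∞ = ∑ δ_S`, the sum over the `S` containing `i` and `j`. -/
def IsCurve (m : Finset (Fin q) → ℕ) (d : ℕ) : Prop :=
  (∀ S : Finset (Fin q), S.card ≤ 1 → m S = 0) ∧ m univ = 0 ∧
    ∀ i j : Fin q, i ≠ j →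
      ∑ S ∈ univ.filter (fun S : Finset (Fin q) => i ∈ S ∧ j ∈ S), m S = d

/-- The degree of `∑ c S • δ_S` on the curve with the numbers `m`, `d` in the factor `M̄_{0,q+1}` of
a stratum given by the `B i`; the degree of `ψ_i` on the curve is `∑ m S - d`, the sum over the `S`
containing `i`. -/
def degree (c : Finset (Fin p) → ℝ) (B : Fin q → Finset (Fin p)) (m : Finset (Fin q) → ℕ)
    (d : ℕ) : ℝ :=
  ∑ S ∈ univ.filter (fun S : Finset (Fin q) => 2 ≤ S.card ∧ S.card < q), c (S.biUnion B) * m S -
    ∑ i, c (B i) * (∑ S ∈ univ.filter (fun S : Finset (Fin q) => i ∈ S), (m S : ℝ) - d) -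
    c (univ.biUnion B) * d

theorem pairs {G : Fin p → Fin p → ℝ} (hG : ∀ i, G i i = 0) (S : Finset (Fin p)) :
    ∑ i ∈ S, ∑ j ∈ S, G i j =
      ∑ y ∈ S, ∑ x ∈ S.filter (fun x : Fin p => x < y), (G x y + G y x) := by
  have e1 : ∀ i ∈ S, ∑ j ∈ S, G i j =
      ∑ j ∈ S.filter (fun j => j < i), G i j + ∑ j ∈ S.filter (fun j => i < j), G i j := by
    intro i hi
    rw [← sum_erase S (hG i), ← sum_union]
    · refine sum_congr ?_ fun _ _ => rfl
      ext j
      simp only [mem_erase, mem_union, mem_filter]
      constructor
      · rintro ⟨h1, h2⟩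
        rcases lt_or_gt_of_ne h1 with h3 | h3
        · exact Or.inl ⟨h2, h3⟩
        · exact Or.inr ⟨h2, h3⟩
      · rintro (⟨h1, h2⟩ | ⟨h1, h2⟩)
        · exact ⟨ne_of_lt h2, h1⟩
        · exact ⟨ne_of_gt h2, h1⟩
    · rw [disjoint_left]
      intro j hj hj'
      exact lt_asymm (mem_filter.1 hj).2 (mem_filter.1 hj').2
  have e2 : ∑ i ∈ S, ∑ j ∈ S.filter (fun j => i < j), G i j =
      ∑ y ∈ S, ∑ x ∈ S.filter (fun x => x < y), G x y := by
    simp only [sum_filter]
    rw [sum_comm]
  rw [sum_congr rfl e1, sum_add_distrib, e2, ← sum_add_distrib]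
  refine sum_congr rfl fun y _ => ?_
  rw [← sum_add_distrib]
  exact sum_congr rfl fun x _ => by ring

/-- Let `D = ∑ c S • δ_S` be a divisor on `M̄_{0,p+1}` with real coefficients, and let `x, y, z` be
different marks, different from `∞`.

1. `D` has degree zero on the F-curves with `x, y` in the same part and `z, ∞` in the same part (the
   F-curves in the stratum `δ_{xy} ∩ δ_{z∞}`) if and only if `D` is linearly equivalent to a
   combination of boundary divisors that separate `x` from `y` or `z` from `∞`.
2. In this case, if `D` has nonnegative degree on all F-curves then `D` has nonnegative degree on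
   all curves, in all strata; so `D` is nef. -/
theorem result (p : ℕ) (c : Finset (Fin p) → ℝ) (hc : IsDivisor c) (x y z : Fin p)
    (hxy : x ≠ y) (hxz : x ≠ z) (hyz : y ≠ z) :
    (StratumZero c x y z ↔ ∃ u : Finset (Fin p) → ℝ, IsDivisor u ∧ LinEquiv c u ∧
      ∀ S : Finset (Fin p), u S ≠ 0 → Separates x y z S) ∧
    (StratumZero c x y z → FNef c →
      ∀ (q : ℕ) (B : Fin q → Finset (Fin p)) (m : Finset (Fin q) → ℕ) (d : ℕ), 3 ≤ q →
        IsStratum B → IsCurve m d → 0 ≤ degree c B m d) := by
  have hunion : ∀ X Y : Finset (Fin p), D0H8.FP.Uns x y z X → D0H8.FP.Uns x y z Y →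
      D0H8.FP.Uns x y z (X ∪ Y) := by
    intro X Y hX hY
    unfold D0H8.FP.Uns at hX hY ⊢
    rw [mem_union, mem_union, mem_union, not_or]
    exact ⟨⟨hX.1, hY.1⟩, by rw [hX.2, hY.2]⟩
  refine ⟨⟨fun hz => ?_, ?_⟩, fun hz hF q B m d hq hB hm => ?_⟩
  · have h0 : c ∅ = 0 := hc.1 ∅ (by simp)
    have hz' : ∀ X Y Z : Finset (Fin p), X.Nonempty → Y.Nonempty → Z.Nonempty → Disjoint X Y →
        Disjoint X Z → Disjoint Y Z → D0H8.FP.Uns x y z X → D0H8.FP.Uns x y z Y →
        D0H8.FP.Uns x y z Z → R647.AF.T c X Y Z = 0 :=
      fun X Y Z n1 n2 n3 d1 d2 d3 u1 u2 u3 =>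
        hz X Y Z n1 n2 n3 d1 d2 d3 u1.1 u2.1 u3.1 u1.2 u2.2 u3.2
    refine ⟨D0H8.FP.nn c x y z, ⟨fun S hS => ?_, D0H8.FP.nn_univ⟩,
      ⟨fun i j => D0H8.FP.GG c x y z i j + D0H8.FP.GG c x y z j i, fun S => ?_⟩, fun S hS => ?_⟩
    · rcases Nat.lt_or_ge S.card 1 with h1 | h1
      · rw [card_eq_zero.1 (show S.card = 0 by omega), D0H8.FP.nn_empty h0]
      · obtain ⟨i, hi⟩ := card_eq_one.1 (show S.card = 1 by omega)
        rw [hi, D0H8.FP.nn_single hxz]
    · rw [← pairs (D0H8.FP.GG_self hxz) S]
      unfold D0H8.FP.nn
      have e : ∑ i ∈ S, c {i} = 0 := sum_eq_zero fun i _ => hc.1 {i} (by simp)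
      rw [e]
      ring
    · by_contra hn
      unfold Separates at hn
      rw [not_or, not_not] at hn
      exact hS (D0H8.FP.nn_uns h0 hxy hxz hyz hz' S hn)
  · rintro ⟨u, hu, ⟨w, hw⟩, hsupp⟩ A B C _ _ _ h1 h2 h3 k1 k2 k3 l1 l2 l3
    have hcu : ∀ S : Finset (Fin p), D0H8.FP.Uns x y z S →
        c S = ∑ i ∈ S, ∑ j ∈ S, (if j < i then w j i else 0) := by
      intro S hS
      have e1 : u S = 0 := by
        by_contra hn
        rcases hsupp S hn with e | e
        · exact hS.1 e
        · exact e hS.2
      have e2 := hw S
      rw [e1, sub_zero] at e2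
      rw [e2]
      refine sum_congr rfl fun y _ => ?_
      rw [sum_filter]
    have uA : D0H8.FP.Uns x y z A := ⟨k1, l1⟩
    have uB : D0H8.FP.Uns x y z B := ⟨k2, l2⟩
    have uC : D0H8.FP.Uns x y z C := ⟨k3, l3⟩
    have key := R647.FH.T_quad (fun i j : Fin p => if j < i then w j i else 0) h1 h2 h3
    unfold R647.AF.T at key
    unfold fdegree
    rw [hcu (A ∪ B ∪ C) (hunion _ _ (hunion _ _ uA uB) uC), hcu (A ∪ B) (hunion _ _ uA uB),
      hcu (A ∪ C) (hunion _ _ uA uC), hcu (B ∪ C) (hunion _ _ uB uC), hcu A uA, hcu B uB,
      hcu C uC]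
    exact key
  · exact D0H8.FP.nef (hc.1 ∅ (by simp)) hF
      (fun X Y Z n1 n2 n3 d1 d2 d3 u1 u2 u3 =>
        hz X Y Z n1 n2 n3 d1 d2 d3 u1.1 u2.1 u3.1 u1.2 u2.2 u3.2)
      (by omega) hB.1 hB.2 hm.1 hm.2.1 hm.2.2

end Pool.Agent.Results.MP_23e236_ag.TwoPairs
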