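import Pool.Agent.D0H29.FW.Main
import Pool.Agent.NH46.F8.Eight
import Pool.Agent.NH46.F8.Final

set_option autoImplicit false

/-!
# The F-conjecture for divisors with light interchangeable marks

`n` marks; `c` is a divisor on `M̄_{0,n}` (the coefficients of the boundary divisors and of the
`-ψ_i`), `H` a set of marks, and the other marks are divided in `r` classes of interchangeable marks
(`c` is invariant under their permutations).  The marks have weights `w`, as in Hassett's spaces
`M̄_{0,w}` of weighted pointed stable curves; `δ` is a bound for the weights of the marks not in `H`.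
The map `M̄_{0,n} → M̄_{0,w}` contracts the F-curves with three parts of total weight at most one, and
the divisors pulled back from `M̄_{0,w}` are those of degree zero on these F-curves.

Theorem.  Suppose that `max (1, |H|) + r ≤ 8` and that the total weight of the marks not in `H` is at
most `(9 - |H| - r) (1 - δ)`.  If `c` is F-nef and has degree zero on the F-curves with parts `A`,
`{x}`, `{y}` of total weight at most one (`x`, `y` in one class, `A ∪ {x, y}` disjoint from `H`) then
`c` is nef.  Instead of degree zero it suffices that the degree on these F-curves does not decrease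
if marks are moved from the fourth part to `A` (`LightGrow`); this gives cones of full dimension.

There is no bound for `n`.  Special cases:

* at most 7 heavy marks (`H`, no symmetry among them) and any number of light interchangeable marks
  (`w = 0` off `H`, `r = 1`); 6 heavy marks and two classes, …; 1 heavy mark and 7 classes.  With the
  flag map and the theorem of Gibney, Keel and Morrison: the F-conjecture for the divisors on
  `M̄_{g,p}`, `p ≤ 7` and all `g`, whose coefficients `b_{i,∅}` are a quadratic function of `i`.
* The `S_n`-invariant divisors pulled back from the space `M̄_{0,(1/k,…,1/k)}` if `n < 8 k` (`H = ∅`,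
  `r = 1`, `w` a number slightly larger than `1/(k+1)`); more generally the `S_n`-invariant divisors
  for which the degree `f(a)` on the F-curves with parts of `a`, `1`, `1` marks satisfies
  `f(a) ≤ f(b)` for `a ≤ k - 2`, `a < b ≤ n - 3 - a`.
* `h` heavy marks and `m < (8 - h) k` interchangeable marks of weight `1/k`, for `h ≤ 7`; Hassett
  spaces with marks of `r` different small weights and total weight about `9 - r` at most.

Proof.  If two parts `B_i`, `B_k` of a stratum contain no marks of `H`, contain marks `x`, `y` of one
class, and have weights at most `1 - δ`, then the degree of `c` on a curve in the stratum is at least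
the average of the degrees on its images in the strata for which `x` is moved from `B_i` to `B_k`, or
`y` from `B_k` to `B_i`: the difference is a nonnegative combination of differences of degrees on
F-curves of the form in `LightGrow`.  So a partition with minimal degree and, among these, with the
largest sum of the squares of the numbers of marks has at most `r` parts of small weight without
marks of `H`; it has at most eight parts, and the F-conjecture is true for `n ≤ 8` (Larsen for
`n ≤ 7`, Fedorchuk and Mellit for `n = 8`; proved again in the starting files which are imported).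
-/

namespace Pool.Agent.Results.MP_23e236_ag.WeightedMarks

open Finset Pool.Agent.NH37.FC Pool.Agent.NH37.SL Pool.Agent.NH37.MF Pool.Agent.NH37.MG
  Pool.Agent.D0H29.FW

/-- The case of degree zero (divisors pulled back from Hassett's spaces). -/
theorem lightGrow_of_zero {n r : ℕ} {c : Finset (Fin n) → ℝ} (hc : IsDivisor c) (hF : FNef c)
    {H : Finset (Fin n)} {κ : Fin n → Fin r} {w : Fin n → ℝ}
    (h : ∀ (A : Finset (Fin n)) (x y : Fin n), x ∉ H → y ∉ H → x ≠ y → κ x = κ y → Disjoint A H →
      x ∉ A → y ∉ A → wt w A + w x + w y ≤ 1 → fdeg c A {x} {y} = 0) : LightGrow c H κ w := by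
  intro A V x y hx hy hxy hκ hA hxA hyA hV hw _
  rw [h A x y hx hy hxy hκ hA hxA hyA hw]
  rw [disjoint_union_right, disjoint_insert_right, disjoint_singleton_right] at hV
  refine fdeg_nonneg hc hF ?_ ?_ (by simpa using hxy)
  · rw [disjoint_singleton_right, mem_union, not_or]
    exact ⟨hxA, hV.2.1⟩
  · rw [disjoint_singleton_right, mem_union, not_or]
    exact ⟨hyA, hV.2.2⟩

/-- **The F-conjecture for divisors with light interchangeable marks.**

Let `c` be an F-nef divisor on `M̄_{0,n}` for which the marks of each of the `r` classes of `κ` which
are not in `H` are interchangeable.  Let `w ≥ 0` be weights of the marks, `w x ≤ δ` for `x ∉ H`, with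
`max (1, |H|) + r ≤ 8` and `∑_{x ∉ H} w x ≤ (9 - |H| - r) (1 - δ)`, and suppose `LightGrow c H κ w`
(for instance: the degree is zero on the F-curves with parts `A`, `{x}`, `{y}` of weight at most one,
for `x`, `y` in one class and `A ∪ {x, y}` disjoint from `H`).  Then `c` is nef: it has nonnegative
degree on all curves in all strata. -/
theorem result {n r : ℕ} {H : Finset (Fin n)} {κ : Fin n → Fin r} {c : Finset (Fin n) → ℝ}
    (hc : IsDivisor c) (hF : FNef c)
    (hκ : ∀ x ∉ H, ∀ y ∉ H, κ x = κ y → Exch c {x} {y}) {w : Fin n → ℝ} {δ : ℝ}
    (hw : ∀ x, 0 ≤ w x) (hδ : ∀ x ∉ H, w x ≤ δ) (hr : max 1 H.card + r ≤ 8)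
    (hW : ∑ x ∈ Hᶜ, w x ≤ (9 - H.card - r) * (1 - δ)) (hG : LightGrow c H κ w)
    (q : ℕ) (B : Fin q → Finset (Fin n)) (hq : 4 ≤ q) (hB : IsPartition B)
    (m : Finset (Fin q) → ℝ) (ψ : Fin q → ℝ) (hm : IsCurve m ψ) : 0 ≤ degree c B m ψ := by
  have hN : Base 8 := fun q h4 h8 b hb hbF m ψ hm =>
    (Pool.Agent.NH46.F8.final Pool.Agent.NH46.F8.eight).2 q q h4 h8 b hb hbF (fun i => {i})
      ⟨fun i => singleton_nonempty i, fun i j hij => disjoint_singleton.2 hij, by ext; simp⟩ m ψ hm
  refine weights (N := 8) (by norm_num) hN hc hF (𝒞 := fun _ m ψ => IsCurve m ψ)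
    (fun _ _ _ h => h) (fun _ _ _ _ hp _ _ h => isCurve_push hp h) hκ hw hδ hr ?_ hG q B hq hB m ψ
    hm
  have : ((8 : ℕ) : ℝ) + 1 = 9 := by norm_num
  rw [this]
  exact hW

end Pool.Agent.Results.MP_23e236_ag.WeightedMarks
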